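import Pool.Agent.Helper47.ER.Goals
import Pool.Agent.Helper45.EQ.CYC
import Mathlib

/-!
# Project ER (MP_5b9a11_al), packet CYC2: the trace of a monomial tensor with the exact exponent
-/

set_option autoImplicit false
set_option linter.unusedSectionVars false

namespace Pool.Agent.Helper39.ER.CYC2

open Pool.Agent.Helper98.EQ (tn pm nz S_TEN)
open Pool.Agent.Helper47.ER (zo S_CYC2)
open Pool.Agent.Helper45.EQ.CYC

theorem t (hT : S_TEN) : S_CYC2 := by
  intro p _ A n R _ _ _ _ _ τ L h0 hadd htr g j
  classical
  obtain ⟨t1, t2, -, -, -, -, t7⟩ := hT A n R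
  have hfac : tn (fun a => τ (j a)) * pm R g =
      tn (fun a => τ (pot g j a)) * ((tn (fun a => τ (jr g j a)) * pm R g) *
        tn (fun a => τ (-pot g j a))) := by
    rw [mul_assoc (tn (fun a => τ (jr g j a))), t7, ← mul_assoc (tn (fun a => τ (jr g j a))),
      ← mul_assoc, t1, t1]
    congr 1
    congr 1
    funext a
    rw [← hadd, ← hadd]
    congr 1
    have := pot_eq g j a
    rw [sub_eq_add_neg, add_assoc] at this
    exact this
  have hcan : tn (fun a => τ (-pot g j a)) * tn (fun a => τ (pot g j a)) =
      (1 : Matrix (A → n) (A → n) R) := by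
    rw [t1, ← t2]
    congr 1
    funext a
    rw [← hadd, neg_add_cancel, h0]
  have htrc : (tn (fun a => τ (j a)) * pm R g).trace =
      (tn (fun a => τ (jr g j a)) * pm R g).trace := by
    rw [hfac, Matrix.trace_mul_comm, mul_assoc, hcan, mul_one]
  rw [htrc]
  let _ : Fintype (Orb g) := Fintype.ofFinite _
  rw [trace_rep τ h0 g j]
  have hnz : nz g j = (Finset.univ.filter fun o : Orb g => ¬ os g j o = 0).card := by
    unfold nz
    rw [Nat.card_eq_fintype_card, Fintype.card_subtype]
    rfl
  have hzo : zo g j = (Finset.univ.filter fun o : Orb g => os g j o = 0).card := by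
    unfold zo
    rw [Nat.card_eq_fintype_card, Fintype.card_subtype]
    rfl
  rw [hnz, hzo,
    ← Finset.prod_filter_mul_prod_filter_not Finset.univ (fun o : Orb g => os g j o = 0), mul_comm]
  congr 1
  · rw [← Finset.prod_const]
    refine Finset.prod_congr rfl fun o ho => ?_
    rw [htr, if_neg (Finset.mem_filter.1 ho).2]
  · rw [← Finset.prod_const]
    refine Finset.prod_congr rfl fun o ho => ?_
    rw [htr, if_pos (Finset.mem_filter.1 ho).2]

end Pool.Agent.Helper39.ER.CYC2
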